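import Pool.Agent.Helper53.UR.Goals

/-!
# PROJECT UR, packet FC1: one big step of the machine (adapted from `Helper94/CTG/FC1.lean`)
-/

set_option autoImplicit false

namespace Pool.Agent.Helper20.UR

open Pool.Agent.Helper1.TE (cif codeB NumMach)
open Pool.Agent.Helper65.LinSpace (dig eq01 le01 lt01 Ctx)
open Pool.Agent.Helper53.CTG (De De.k De.m De.e De.f De.v De.i De.T sub root Nt Hb Et Eb Fb Gb Pb
  bigT bigX bigS bigA gadC ev op runs toF dec)
open Pool.Agent.Helper53.UR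

variable {β : Type} [Ctx β]

/-- The next state in mode 2. -/
theorem nx_main (M : UM β) (w : List Bool) (o : β) (ρ u τ g γ : ℕ) (D : De) (X S A : ℕ)
    (hγ : γ * (1 - M.gq (mainS o ρ u τ g D X S A)) = 0) :
    M.mach.nx w (mainS o ρ u τ g D X S A) γ =
    cif (Nt (M.N o) (M.q o) - u)
      (cif (Nt (M.N o) (M.q o) + 3 * M.b o - u)
        (cif (bigT (M.tst o ρ) (M.b o) (M.c o) (M.W o) D g (M.wV o D A g) X A) rejS
          (cif ((τ + 1) / 13 ^ Nt (M.N o) (M.q o))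
            (mainS o ρ 0 (τ + 1) 0 (root (M.N o) (M.q o))
              (bigX (M.N o) (M.q o) (M.b o) (M.c o) (M.W o) D g (M.wV o D A g) X S A)
              (bigS (M.N o) (M.q o) (M.b o) (M.c o) (M.W o) D (M.wV o D A g) X S A)
              (bigA (M.c o) (M.W o) D (M.wV o D A g) A))
            (ctS (M.d o ρ))))
        (mainS o ρ (u + 1) τ (2 * g + γ) D X S A))
      (mainS o ρ (u + 1) τ g
        (sub (M.q o) D (Nt (M.N o) (M.q o) - 1 - u)
          (dig 13 τ (Nt (M.N o) (M.q o) - 1 - u))) X S A) := by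
  change M.nextM (mainS o ρ u τ g D X S A) (codeB w[(mainS o ρ u τ g D X S A).u]?) γ = _
  unfold UM.nextM
  rw [hγ]
  rfl

omit [Ctx β] in
theorem gq_guess (M : UM β) {o : β} {ρ u τ g : ℕ} {D : De} {X S A : ℕ}
    (h1 : Nt (M.N o) (M.q o) ≤ u) (h2 : u < Nt (M.N o) (M.q o) + 3 * M.b o) :
    M.gq (mainS o ρ u τ g D X S A) = 1 := by
  change eq01 2 1 * eq01 (M.h o) 0 +
    eq01 2 2 * (le01 (Nt (M.N o) (M.q o)) u * lt01 u (Nt (M.N o) (M.q o) + 3 * M.b o)) = 1
  unfold eq01 le01 lt01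
  rw [if_neg (by norm_num), if_pos rfl, if_pos h1, if_pos h2]
  norm_num

theorem step_dec (M : UM β) (w : List Bool) {o : β} {ρ u τ g : ℕ} {D : De} {X S A : ℕ}
    (hu : u < Nt (M.N o) (M.q o)) :
    M.mach.nx w (mainS o ρ u τ g D X S A) 0 =
      mainS o ρ (u + 1) τ g
        (sub (M.q o) D (Nt (M.N o) (M.q o) - 1 - u)
          (dig 13 τ (Nt (M.N o) (M.q o) - 1 - u))) X S A := by
  rw [nx_main M w o ρ u τ g 0 D X S A (Nat.zero_mul _)]
  have : Nt (M.N o) (M.q o) - u ≠ 0 := by omega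
  unfold cif
  rw [if_neg this]

theorem step_guess (M : UM β) (w : List Bool) {o : β} {ρ u τ g γ : ℕ} {D : De} {X S A : ℕ}
    (h1 : Nt (M.N o) (M.q o) ≤ u) (h2 : u < Nt (M.N o) (M.q o) + 3 * M.b o) :
    M.mach.nx w (mainS o ρ u τ g D X S A) γ = mainS o ρ (u + 1) τ (2 * g + γ) D X S A := by
  rw [nx_main M w o ρ u τ g γ D X S A
    (by rw [gq_guess M h1 h2, Nat.sub_self, Nat.mul_zero])]
  have e1 : Nt (M.N o) (M.q o) - u = 0 := by omega
  have e2 : Nt (M.N o) (M.q o) + 3 * M.b o - u ≠ 0 := by omega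
  unfold cif
  rw [if_pos e1, if_neg e2]

theorem step_last (M : UM β) (w : List Bool) {o : β} {ρ τ g : ℕ} {D : De} {X S A : ℕ}
    (hT : bigT (M.tst o ρ) (M.b o) (M.c o) (M.W o) D g (M.wV o D A g) X A ≠ 0)
    (hτ : τ < 13 ^ Nt (M.N o) (M.q o)) :
    M.mach.nx w (mainS o ρ (Nt (M.N o) (M.q o) + 3 * M.b o) τ g D X S A) 0 =
      if τ + 1 < 13 ^ Nt (M.N o) (M.q o) then
        mainS o ρ 0 (τ + 1) 0 (root (M.N o) (M.q o))
              (bigX (M.N o) (M.q o) (M.b o) (M.c o) (M.W o) D g (M.wV o D A g) X S A)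
              (bigS (M.N o) (M.q o) (M.b o) (M.c o) (M.W o) D (M.wV o D A g) X S A)
              (bigA (M.c o) (M.W o) D (M.wV o D A g) A)
      else ctS (M.d o ρ) := by
  rw [nx_main M w o ρ _ τ g 0 D X S A (Nat.zero_mul _)]
  have e1 : Nt (M.N o) (M.q o) - (Nt (M.N o) (M.q o) + 3 * M.b o) = 0 := by omega
  have e2 : Nt (M.N o) (M.q o) + 3 * M.b o - (Nt (M.N o) (M.q o) + 3 * M.b o) = 0 := by omega
  unfold cif
  rw [if_pos e1, if_pos e2, if_neg hT]
  by_cases h3 : τ + 1 < 13 ^ Nt (M.N o) (M.q o)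
  · rw [if_pos h3, if_pos (Nat.div_eq_of_lt h3)]
  · have h4 : τ + 1 = 13 ^ Nt (M.N o) (M.q o) := by omega
    rw [if_neg h3, h4, Nat.div_self (by positivity), if_neg one_ne_zero]

/-- The phase which computes the descriptor. -/
theorem phase_dec (M : UM β) (w : List Bool) {o : β} {ρ τ : ℕ} {X S A : ℕ}
    (hR : M.mach.Reach w (mainS o ρ 0 τ 0 (root (M.N o) (M.q o)) X S A)) :
    ∀ u ≤ Nt (M.N o) (M.q o), M.mach.Reach w
      (mainS o ρ u τ 0
        (dec (M.q o) (root (M.N o) (M.q o)) (Nt (M.N o) (M.q o)) τ u) X S A) := by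
  intro u
  induction u with
  | zero =>
    intro _
    exact hR
  | succ u ih =>
    intro hu
    refine (ih (by omega)).tail ⟨0, by norm_num, ?_⟩
    rw [step_dec M w (by omega)]
    rfl

/-- The guessing phase. -/
theorem phase_guess (M : UM β) (w : List Bool) {o : β} {ρ τ : ℕ} {D : De} {X S A : ℕ}
    (G : ℕ) (hG : G < 2 ^ (3 * M.b o))
    (hR : M.mach.Reach w (mainS o ρ (Nt (M.N o) (M.q o)) τ 0 D X S A)) :
    ∀ u ≤ 3 * M.b o, M.mach.Reach w
      (mainS o ρ (Nt (M.N o) (M.q o) + u) τ (G / 2 ^ (3 * M.b o - u)) D X S A) := by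
  intro u
  induction u with
  | zero =>
    intro _
    rw [Nat.sub_zero, Nat.div_eq_of_lt hG]
    exact hR
  | succ u ih =>
    intro hu
    have h1 := ih (by omega)
    refine h1.tail ⟨(G / 2 ^ (3 * M.b o - (u + 1))) % 2, Nat.mod_lt _ (by norm_num), ?_⟩
    rw [step_guess M w (by omega) (by omega)]
    have e1 : 3 * M.b o - u = (3 * M.b o - (u + 1)) + 1 := by omega
    have e2 : G / 2 ^ (3 * M.b o - u) = G / 2 ^ (3 * M.b o - (u + 1)) / 2 := by
      rw [e1, pow_succ, Nat.div_div_eq_div_mul]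
    rw [e2, Nat.div_add_mod]
    rfl

theorem gFC1 : GoalFC1 := by
  intro hST β _ M hM w o ρ τ g X S A s' hτ hg hX hS hC hR hop
  have hG2 : g < 2 ^ (3 * M.b o) := by
    have : (2 : ℕ) ^ (3 * M.b o) = 8 ^ M.b o := by
      rw [pow_mul]
      norm_num
    rw [this]
    exact hg
  have hR0 := phase_dec M w hR (Nt (M.N o) (M.q o)) le_rfl
  have hR1 := phase_guess M w g hG2 hR0 (3 * M.b o) le_rfl
  rw [Nat.sub_self, pow_zero, Nat.div_one] at hR1
  obtain ⟨s1, s2⟩ := hST M hM o ρ τ g X S A hτ hg hX hS hC _ rfl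
  generalize hD : dec (M.q o) (root (M.N o) (M.q o)) (Nt (M.N o) (M.q o)) τ
    (Nt (M.N o) (M.q o)) = D at hR1 s1 s2
  have hbT : bigT (M.tst o ρ) (M.b o) (M.c o) (M.W o) D g (M.wV o D A g) X A ≠ 0 := by
    intro h0
    have := s1 h0
    rw [hop] at this
    exact absurd this (by simp)
  obtain ⟨s'', h1, _, h3⟩ := s2 hbT
  rw [hop] at h1
  have hs : s' = s'' := Option.some.inj h1
  subst hs
  have hl := step_last M w (τ := τ) (S := S) hbT hτ
  constructor
  · intro hτ1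
    rw [if_neg (by omega)] at hl
    exact hR1.tail ⟨0, by norm_num, hl.symm⟩
  · intro hτ1
    rw [if_pos hτ1] at hl
    obtain ⟨k1, k2, k3⟩ := h3 hτ1
    exact ⟨_, _, _, k1, k2, k3, hR1.tail ⟨0, by norm_num, hl.symm⟩⟩

end Pool.Agent.Helper20.UR
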